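import Mathlib

namespace Pool.Agent.H.MP_12f94a_pr

open MeasureTheory ProbabilityTheory Filter Topology Finset Classical
open scoped ENNReal

variable {V : Type} (G : SimpleGraph V) [G.LocallyFinite]

noncomputable def W : ℕ → V → Finset (List (Sym2 V))
  | 0, _ => {[]}
  | n + 1, u => (G.neighborFinset u).biUnion fun w => (W n w).image (s(u, w) :: ·)

lemma mem_W {u v : V} (p : G.Walk u v) : p.edges ∈ W G p.length u := by
  induction p with
  | nil => simp [W]
  | cons h p ih => exact mem_biUnion.mpr ⟨_, by simpa using h, mem_image_of_mem _ ih⟩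

lemma card_W {D : ℕ} (h : ∀ v, G.degree v ≤ D) (n : ℕ) : ∀ u, #(W G n u) ≤ D ^ n := by
  induction n with
  | zero => simp [W]
  | succ n ih => exact fun u => (card_biUnion_le_card_mul _ _ _ fun w _ =>
      card_image_le.trans (ih w)).trans (by rw [pow_succ']; exact Nat.mul_le_mul_right _ (h u))

lemma ball_fin (n : ℕ) : ∀ u, {v | ∃ p : G.Walk u v, p.length ≤ n}.Finite := by
  induction n with
  | zero => exact fun u => (Set.finite_singleton u).subset fun v ⟨p, h⟩ =>
      (p.eq_of_length_eq_zero (by omega)).symm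
  | succ n ih =>
    refine fun u => (((G.neighborSet u).toFinite.biUnion fun w _ => ih w).insert u).subset ?_
    rintro v ⟨p, h⟩
    cases p with
    | nil => exact .inl rfl
    | cons a p => exact .inr (Set.mem_biUnion a ⟨p, by simpa using h⟩)

lemma fast {X : Type} [MeasurableSpace X] (ν : Measure X) [IsProbabilityMeasure ν] {F : Set X}
    (hF : MeasurableSet F) {D : ℕ} (h : ∀ v, G.degree v ≤ D) (hq : 2 * D * ν F < 1) (o : V) :
    ∀ᵐ c ∂(Measure.infinitePi fun _ : Sym2 V => ν), ∀ k : ℕ, {v | ∃ p : G.Walk o v, p.IsPath ∧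
      (p.edges.filter fun e => c e ∉ F).length ≤ k}.Finite := by
  refine ae_all_iff.mpr fun k => ?_
  let A : ℕ → Set (Sym2 V → X) := fun j => ⋃ l ∈ (W G (j + k) o).filter fun l => l.length = j + k,
    ⋃ S ∈ l.toFinset.powerset.filter fun S => j ≤ #S, Set.pi (S : Set (Sym2 V)) fun _ => F
  have b : ∀ j, (Measure.infinitePi fun _ : Sym2 V => ν) (A j) ≤
      (2 * D) ^ k * (2 * D * ν F) ^ j := fun j => by
    refine (measure_biUnion_finset_le _ _).trans ((sum_le_card_nsmul _ _
      (2 ^ (j + k) * ν F ^ j) fun l hl => ?_).trans ?_)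
    · refine (measure_biUnion_finset_le _ _).trans ((sum_le_card_nsmul _ _ (ν F ^ j)
        fun S hS => ?_).trans ?_)
      · rw [Measure.infinitePi_pi _ fun _ _ => hF, prod_const]
        exact pow_le_pow_right_of_le_one' prob_le_one (mem_filter.mp hS).2
      · rw [nsmul_eq_mul]
        gcongr
        have := (card_filter_le l.toFinset.powerset fun S => j ≤ #S).trans ((card_powerset _).trans_le
          (Nat.pow_le_pow_right two_pos (l.toFinset_card_le.trans (mem_filter.mp hl).2.le)))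
        exact_mod_cast this
    · rw [nsmul_eq_mul]
      have : (#((W G (j + k) o).filter fun l => l.length = j + k) : ℝ≥0∞) ≤ D ^ (j + k) := by
        exact_mod_cast (card_filter_le _ _).trans (card_W G h _ o)
      exact (mul_le_mul_left this _).trans (le_of_eq (by ring))
  have s : ∑' j, (Measure.infinitePi fun _ : Sym2 V => ν) (A j) ≠ ∞ :=
    ne_top_of_le_ne_top (by
      rw [ENNReal.tsum_mul_left, ENNReal.tsum_geometric]
      exact ENNReal.mul_ne_top (by finiteness) (ENNReal.inv_ne_top.mpr (tsub_pos_of_lt hq).ne'))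
      (ENNReal.tsum_le_tsum b)
  filter_upwards [ae_finite_setOfPred_mem s] with c hc
  obtain ⟨n, hn⟩ := hc.bddAbove
  refine (ball_fin G (n + k) o).subset fun v ⟨p, h1, h2⟩ => ⟨p, ?_⟩
  by_contra h3
  obtain ⟨j, hj⟩ : ∃ j, p.length = j + k := ⟨p.length - k, by omega⟩
  refine h3 (hj ▸ Nat.add_le_add_right (hn (Set.mem_biUnion (mem_coe.mpr (mem_filter.mpr
    ⟨hj ▸ mem_W G p, by simpa⟩)) (Set.mem_biUnion (x := (p.edges.filter fun e => c e ∈ F).toFinset)
      (mem_coe.mpr (mem_filter.mpr ⟨by simp [Finset.subset_iff]; tauto, ?_⟩)) ?_))) k)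
  · rw [List.toFinset_card_of_nodup (h1.edges_nodup.filter _)]
    have := p.edges.length_eq_length_filter_add fun e => c e ∈ F
    simp at this h2; omega
  · intro e he; simpa using (by simpa using he : _ ∧ _).2

lemma expo {r x : ℝ} (hr : 0 < r) (hx : 0 ≤ x) : expMeasure r (Set.Iic x) ≤ .ofReal (r * x) := by
  have := isProbabilityMeasure_expMeasure hr
  rw [← ofReal_cdf, cdf_expMeasure_eq hr, if_pos hx]
  exact ENNReal.ofReal_le_ofReal (by linarith [Real.add_one_le_exp (-(r * x))])

lemma two {r x : ℝ} (hr : 0 < r) (hx : 0 ≤ x) : (expMeasure 1).prod (expMeasure r)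
    (Prod.fst ⁻¹' Set.Iic x ∪ Prod.snd ⁻¹' Set.Iic x) ≤ .ofReal ((1 + r) * x) := by
  have := isProbabilityMeasure_expMeasure hr
  have := isProbabilityMeasure_expMeasure one_pos
  refine (measure_union_le _ _).trans ?_
  rw [measurePreserving_fst.measure_preimage measurableSet_Iic.nullMeasurableSet,
    measurePreserving_snd.measure_preimage measurableSet_Iic.nullMeasurableSet, add_mul,
    ENNReal.ofReal_add (by positivity) (by positivity)]
  exact add_le_add (expo one_pos hx) (expo hr hx)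

lemma clocks [Countable V] {r : ℝ} (hr : 0 < r) (h : ∀ v, G.degree v ≤ 4) (o : V) : ∃ ε > 0,
    ∀ᵐ c ∂(Measure.infinitePi fun _ : Sym2 V => (expMeasure 1).prod (expMeasure r)),
      (∀ e, 0 < (c e).1 ∧ 0 < (c e).2) ∧ ∀ k : ℕ, {v | ∃ p : G.Walk o v, p.IsPath ∧
      (p.edges.filter fun e => ε < (c e).1 ∧ ε < (c e).2).length ≤ k}.Finite := by
  have := isProbabilityMeasure_expMeasure hr
  have := isProbabilityMeasure_expMeasure one_pos
  have m : ∀ x : ℝ, MeasurableSet (Prod.fst ⁻¹' Set.Iic x ∪ Prod.snd ⁻¹' Set.Iic x : Set (ℝ × ℝ)) :=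
    fun x => (measurable_fst measurableSet_Iic).union (measurable_snd measurableSet_Iic)
  have p : (0 : ℝ) < 1 / (10 * (1 + r)) := by positivity
  refine ⟨_, p, Eventually.and (ae_all_iff.mpr fun e => ?_) ?_⟩
  · have := (measurePreserving_eval_infinitePi (fun _ : Sym2 V => (expMeasure 1).prod (expMeasure r))
      e).measure_preimage (m 0).nullMeasurableSet
    refine measure_mono_null (fun c hc => ?_)
      (this.trans (le_zero_iff.mp ((two hr le_rfl).trans (by simp))))
    simpa [or_iff_not_imp_left] using hc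
  · filter_upwards [fast G _ (m _) h (lt_of_le_of_lt (mul_le_mul_right (two hr p.le) _) (by
      rw [show (1 + r) * (1 / (10 * (1 + r))) = 1 / 10 by field_simp, ← ENNReal.ofReal_natCast,
        ← ENNReal.ofReal_ofNat, ← ENNReal.ofReal_mul (by norm_num), ← ENNReal.ofReal_mul (by norm_num)]
      exact ENNReal.ofReal_lt_one.mpr (by norm_num))) o] with c hc
    simpa using hc

lemma seeds {μ : unitInterval} (h : 0 < μ) (f : ℕ → V) (hf : Function.Injective f) :
    ∀ᵐ s ∂(Measure.infinitePi fun _ : V => bernoulliMeasure true false μ), ∃ i, s (f i) = true := by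
  refine le_zero_iff.mp (ge_of_tendsto' (ENNReal.tendsto_pow_atTop_nhds_zero_of_lt_one
    (r := bernoulliMeasure true false μ {false}) ?_) fun n => ?_)
  · rw [bernoulliMeasure_apply _ (by simp)]
    simp only [Set.mem_singleton_iff, Bool.true_eq_false, if_false, if_true, ENNReal.coe_lt_one_iff]
    rw [← NNReal.coe_lt_one]
    simpa using h
  · refine (measure_mono (t := Set.pi ((range n).image f : Finset V) fun _ => {false})
      fun s hs v hv => ?_).trans ?_
    · obtain ⟨i, -, rfl⟩ := mem_image.mp (mem_coe.mp hv)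
      exact (by simpa using hs : ∀ i, s (f i) = false) i
    · rw [Measure.infinitePi_pi _ fun _ _ => by simp, prod_const, card_image_of_injective _ hf,
        card_range]

def h (v : ℕ × ℕ × ℕ) : ℕ := v.1 + v.2.1 + v.2.2

def Q : SimpleGraph (ℕ × ℕ × ℕ) := .fromRel fun u v => v = (u.1, u.2.1 + 1, u.2.2) ∨
  v = (u.1, u.2.1, u.2.2 + 1) ∨ (u.2 = (0, 0) ∧ v = (u.1 + 1, 0, 0))

lemma Q_sub (u : ℕ × ℕ × ℕ) : Q.neighborSet u ⊆ ({(u.1, u.2.1 + 1, u.2.2), (u.1, u.2.1, u.2.2 + 1),
    if u.2 = (0, 0) then (u.1 + 1, 0, 0) else (u.1, u.2.1 - 1, u.2.2),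
    if u.2 = (0, 0) then (u.1 - 1, 0, 0) else (u.1, u.2.1, u.2.2 - 1)} : Finset _) := by
  obtain ⟨i, x, y⟩ := u
  rintro ⟨j, z, w⟩ hv
  simp [Q] at hv ⊢
  grind

noncomputable instance : Q.LocallyFinite := fun u => ((finite_toSet _).subset (Q_sub u)).fintype

lemma Q_deg (u : ℕ × ℕ × ℕ) : Q.degree u ≤ 4 :=
  (card_le_card fun v hv => Q_sub u (by simpa using hv)).trans card_le_four

lemma Q_conn : Q.Connected := by
  have a : ∀ i, Q.Reachable (0, 0, 0) (i, 0, 0) := fun i => by
    induction i with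
    | zero => rfl
    | succ i ih => exact ih.trans (SimpleGraph.Adj.reachable (by simp [Q]))
  have b : ∀ i x, Q.Reachable (0, 0, 0) (i, x, 0) := fun i x => by
    induction x with
    | zero => exact a i
    | succ x ih => exact ih.trans (SimpleGraph.Adj.reachable (by simp [Q]))
  have c : ∀ i x y, Q.Reachable (0, 0, 0) (i, x, y) := fun i x y => by
    induction y with
    | zero => exact b i x
    | succ y ih => exact ih.trans (SimpleGraph.Adj.reachable (by simp [Q]))
  exact ⟨fun u v => (c u.1 u.2.1 u.2.2).symm.trans (c v.1 v.2.1 v.2.2)⟩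

lemma Q_h {u v : ℕ × ℕ × ℕ} (p : Q.Walk u v) : h v ≤ h u + p.length := by
  induction p with
  | nil => simp
  | @cons u w v a p ih =>
    have : h w ≤ h u + 1 := by
      obtain ⟨i, x, y⟩ := u
      obtain ⟨j, z, w⟩ := w
      simp [Q, h] at a ⊢; omega
    simp; omega

lemma Q_growth (n : ℕ) (hn : 1 ≤ n) :
    {v | Q.dist (0, 0, 0) v ≤ n}.encard ≤ (8 * n ^ 3 : ℕ) := by
  refine (Set.encard_le_encard (t := (range (n + 1) ×ˢ range (n + 1) ×ˢ range (n + 1) : Finset _))
    fun v hv => ?_).trans ?_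
  · obtain ⟨p, hp⟩ := Q_conn.exists_walk_length_eq_dist (0, 0, 0) v
    have := Q_h p
    simp [h, hp] at this hv ⊢; omega
  · rw [Set.encard_coe_eq_coe_finsetCard]
    simp only [card_product, card_range, Nat.cast_le]
    have : n + 1 ≤ 2 * n := by omega
    calc _ ≤ (2 * n) * ((2 * n) * (2 * n)) := by gcongr
      _ = _ := by ring

lemma Q_iso (S : Finset (ℕ × ℕ × ℕ)) : #S ≤ #{v ∈ S | ∃ w, w ∉ S ∧ Q.Adj v w} ^ 2 := by
  have k : ∀ (f : ℕ × ℕ × ℕ → ℕ → ℕ × ℕ × ℕ), (∀ v, Function.Injective (f v)) → (∀ v, f v 0 = v) →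
      (∀ v n, Q.Adj (f v n) (f v (n + 1))) → ∀ v ∈ S, ∃ n, f v n ∈ S ∧ ∃ w, w ∉ S ∧ Q.Adj (f v n) w :=
    fun f h1 h2 h3 v hv => by
      by_contra! e
      refine Set.infinite_of_injective_forall_mem (h1 v) (fun n => ?_) S.finite_toSet
      induction n with
      | zero => rwa [h2]
      | succ n ih => exact by_contra fun a => e n ih _ a (h3 v n)
  choose! a ha using k (fun v n => (v.1, v.2.1 + n, v.2.2)) (fun v m n e => by simpa using e)
    (by simp) (by simp [Q, add_assoc])
  choose! b hb using k (fun v n => (v.1, v.2.1, v.2.2 + n)) (fun v m n e => by simpa using e)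
    (by simp) (by simp [Q, add_assoc])
  rw [sq, ← card_product]
  refine card_le_card_of_injOn (fun v => ((v.1, v.2.1 + a v, v.2.2), (v.1, v.2.1, v.2.2 + b v)))
    (fun v hv => mem_coe.mpr (mem_product.mpr ⟨mem_filter.mpr (ha v hv), mem_filter.mpr (hb v hv)⟩))
    fun u _ v _ e => ?_
  simp only [Prod.mk.injEq] at e
  exact Prod.ext e.1.1 (Prod.ext e.2.2.1 e.1.2.2)

end Pool.Agent.H.MP_12f94a_pr
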